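import Pool.Agent.Helper42.VR.Pow.Defs

/-!
# The numeric covering lemma (linear arithmetic)
-/

set_option autoImplicit false

namespace Pool.Agent.Helper42.VR

open Finset

namespace NumAux

lemma top_low {N q s : ℕ} {x : ℕ → ℝ} (hN : N = 7 + (q + s)) {v z : ℝ}
    (hz : ∀ i < q, z ≤ x (7 + i + 1)) (hv : ∀ i < s, v ≤ x (7 + (q + i) + 1)) :
    x 1 + x 2 + x 3 + x 4 + x 5 + x 6 + x 7 + q * z + s * v ≤ ∑ i ∈ range N, x (i + 1) := by
  subst hN
  rw [Finset.sum_range_add, Finset.sum_range_add]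
  have h1 : ∑ i ∈ range 7, x (i + 1) = x 1 + x 2 + x 3 + x 4 + x 5 + x 6 + x 7 := by
    simp [Finset.sum_range_succ]
  have h2 : (q : ℝ) * z ≤ ∑ i ∈ range q, x (7 + i + 1) := by
    have := Finset.card_nsmul_le_sum (range q) (fun i => x (7 + i + 1)) z
      (fun i hi => hz i (Finset.mem_range.1 hi))
    rwa [Finset.card_range, nsmul_eq_mul] at this
  have h3 : (s : ℝ) * v ≤ ∑ i ∈ range s, x (7 + (q + i) + 1) := by
    have := Finset.card_nsmul_le_sum (range s) (fun i => x (7 + (q + i) + 1)) v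
      (fun i hi => hv i (Finset.mem_range.1 hi))
    rwa [Finset.card_range, nsmul_eq_mul] at this
  rw [h1]
  linarith

lemma xN_lt {N : ℕ} (hN : 1 ≤ N) {x : ℕ → ℝ} (hx : Antitone x)
    (htop : ∑ i ∈ range N, x (i + 1) < (N : ℝ) / 2) : x N < 1 / 2 := by
  have := Finset.card_nsmul_le_sum (range N) (fun i => x (i + 1)) (x N)
    (fun i hi => hx (by have := Finset.mem_range.1 hi; omega))
  rw [Finset.card_range, nsmul_eq_mul] at this
  have hN' : (0 : ℝ) < N := by exact_mod_cast hN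
  by_contra hcon
  rw [not_lt] at hcon
  have := mul_le_mul_of_nonneg_left hcon hN'.le
  linarith

/-- the block of `m` -/
lemma block {N m : ℕ} {x : ℕ → ℝ} (hx : Antitone x) (hm : 2 ≤ m) {b : ℝ}
    (hb : ∀ k, 1 ≤ k → 2 * k + 2 ≤ N → x (4 * k) + x (4 * k + 1) - x (4 * k + 2) - x (4 * k + 3) ≤ b)
    (hN : 2 * (m / 2) + 2 ≤ N) : x (2 * m) - x (2 * m + 1) ≤ b := by
  have h := hb (m / 2) (by omega) hN
  have h1 : x (4 * (m / 2) + 1) ≤ x (4 * (m / 2)) := hx (by omega)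
  have h2 : x (4 * (m / 2) + 2) ≤ x (4 * (m / 2) + 1) := hx (by omega)
  have h3 : x (4 * (m / 2) + 3) ≤ x (4 * (m / 2) + 2) := hx (by omega)
  rcases Nat.even_or_odd' m with ⟨k, hk | hk⟩
  · have e1 : 2 * m = 4 * (m / 2) := by omega
    rw [e1]
    linarith
  · have e1 : 2 * m = 4 * (m / 2) + 2 := by omega
    rw [e1]
    have e2 : 4 * (m / 2) + 2 + 1 = 4 * (m / 2) + 3 := by omega
    rw [e2]
    linarith

end NumAux

open NumAux

theorem numeric {N : ℕ} (hN : N = 8 ∨ 16 ≤ N) {x : ℕ → ℝ} (hx : Antitone x) (h0 : ∀ n, 0 ≤ x n)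
    (h1 : ∀ n, x n ≤ 1) {m : ℕ} (hm : 1 ≤ m) (hmN : m + 1 ≤ N)
    (hc : ∀ k, 1 ≤ k → k + 1 ≤ N → x (2 * k) - x (2 * k + 1) ≤ x (2 * m) - x (2 * m + 1))
    {j : ℕ} (hj : 1 ≤ j) (hjN : 2 * j + 2 ≤ N)
    (hb : ∀ k, 1 ≤ k → 2 * k + 2 ≤ N → x (4 * k) + x (4 * k + 1) - x (4 * k + 2) - x (4 * k + 3) ≤
      x (4 * j) + x (4 * j + 1) - x (4 * j + 2) - x (4 * j + 3))
    (hstd : 2 < x 2 + x 3 + (x (2 * m) - x (2 * m + 1)))
    (hQ : 1 < max ((x 4 + x 5 + x 6 + x 7) / 4) ((1 - x 2) / 2) +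
      max ((x (4 * j) + x (4 * j + 1) - x (4 * j + 2) - x (4 * j + 3)) / 4) ((1 - x 1) / 2) +
      max ((x (2 * m) - x (2 * m + 1)) / 2) ((1 - x 3) / 2))
    (h7 : x 1 + x 2 + x 3 + x 4 + x 5 + x 6 + x 7 < 5)
    (htop : ∑ i ∈ range N, x (i + 1) < (N : ℝ) / 2) :
    (2 * m ≤ N ∧ x 2 + x 3 + x (2 * m + 1) ≤ 2 + x (4 * m - 1)) ∨
      (14 ≤ 2 * m ∧ x 2 + x 3 + x (2 * m - 5) ≤ 2 + x (2 * m) ∧ x 2 + x 8 + x 9 ≤ 2 + x (2 * m) ∧
        x 2 + x (2 * m - 5) + x (2 * m - 6) ≤ 2 + x (2 * m + 1) ∧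
        x 8 + x 9 + x (2 * m - 6) ≤ 2 + x (2 * m + 1)) := by
  have hN8 : 8 ≤ N := by omega
  have a01 : x 1 ≤ 1 := h1 1
  have a12 : x 2 ≤ x 1 := hx (by norm_num)
  have a23 : x 3 ≤ x 2 := hx (by norm_num)
  have a34 : x 4 ≤ x 3 := hx (by norm_num)
  have a45 : x 5 ≤ x 4 := hx (by norm_num)
  have a56 : x 6 ≤ x 5 := hx (by norm_num)
  have a67 : x 7 ≤ x 6 := hx (by norm_num)
  have a78 : x 8 ≤ x 7 := hx (by norm_num)
  have a89 : x 9 ≤ x 8 := hx (by norm_num)
  have a9 : 0 ≤ x 9 := h0 9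
  have b1 := hb 1 le_rfl (by omega)
  norm_num at b1
  have hu0 : 0 ≤ x (2 * m + 1) := h0 _
  have hw0 : 0 ≤ x (4 * m - 1) := h0 _
  have huv : x (2 * m + 1) ≤ x (2 * m) := hx (by omega)
  have j3 : 0 ≤ x (4 * j + 3) := h0 _
  have j23 : x (4 * j + 3) ≤ x (4 * j + 2) := hx (by omega)
  have j12 : x (4 * j + 2) ≤ x (4 * j + 1) := hx (by omega)
  have j01 : x (4 * j + 1) ≤ x (4 * j) := hx (by omega)
  -- `m ≥ 2`
  have hm2 : 2 ≤ m := by
    by_contra hcon
    have : m = 1 := by omega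
    subst this
    norm_num at hstd
    linarith
  -- the first `max`
  have hA : (1 - x 2) / 2 ≤ (x 4 + x 5 + x 6 + x 7) / 4 := by
    rcases Nat.lt_or_ge m 3 with h | h
    · have : m = 2 := by omega
      subst this
      norm_num at hstd hu0
      linarith
    · have : x (2 * m) ≤ x 6 := hx (by omega)
      linarith
  have hC : (1 - x 3) / 2 ≤ (x (2 * m) - x (2 * m + 1)) / 2 := by linarith
  rw [max_eq_left hA, max_eq_left hC] at hQ
  have hblock := fun h => block (b := x (4 * j) + x (4 * j + 1) - x (4 * j + 2) - x (4 * j + 3)) hx hm2 hb h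
  -- the case distinction for the second `max`
  have hQ2 : 4 < x 4 + x 5 + x 6 + x 7 + (x (4 * j) + x (4 * j + 1) - x (4 * j + 2) - x (4 * j + 3)) +
      2 * (x (2 * m) - x (2 * m + 1)) ∨ (N < 2 * (m / 2) + 2 ∧
      4 < x 4 + x 5 + x 6 + x 7 + 2 * (1 - x 1) + 2 * (x (2 * m) - x (2 * m + 1))) := by
    rcases le_total ((1 - x 1) / 2) ((x (4 * j) + x (4 * j + 1) - x (4 * j + 2) - x (4 * j + 3)) / 4) with h | h
    · rw [max_eq_left h] at hQ
      left; linarith
    · rw [max_eq_right h] at hQ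
      by_cases hNm : 2 * (m / 2) + 2 ≤ N
      · have := hblock hNm
        left; linarith
      · right
        exact ⟨by omega, by linarith⟩
  clear hQ
  generalize hbdef : x (4 * j) + x (4 * j + 1) - x (4 * j + 2) - x (4 * j + 3) = b at *
  -- small `m`
  rcases Nat.lt_or_ge m 4 with hm4 | hm4
  · have hQ3 : 4 < x 4 + x 5 + x 6 + x 7 + b + 2 * (x (2 * m) - x (2 * m + 1)) := by
      rcases hQ2 with h | ⟨h, -⟩
      · exact h
      · omega
    left
    refine ⟨by omega, ?_⟩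
    rcases Nat.lt_or_ge j 2 with hj2 | hj2
    · have : j = 1 := by omega
      subst this
      norm_num at hbdef
      rcases (by omega : m = 2 ∨ m = 3) with h | h <;> subst h <;> norm_num at hstd hQ3 hu0 hw0 huv ⊢ <;> linarith
    · have : x (4 * j) ≤ x 8 := hx (by omega)
      rcases (by omega : m = 2 ∨ m = 3) with h | h <;> subst h <;> norm_num at hstd hQ3 hu0 hw0 huv ⊢ <;> linarith
  have hv7 : x (2 * m) ≤ x 7 := hx (by omega)
  have hv8 : x (2 * m) ≤ x 8 := hx (by omega)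
  -- the sum of the first `N` for `N = 8`
  have hN8' : N = 8 → x 1 + x 2 + x 3 + x 4 + x 5 + x 6 + x 7 + x 8 < 4 := by
    intro h
    subst h
    have : ∑ i ∈ range 8, x (i + 1) = x 1 + x 2 + x 3 + x 4 + x 5 + x 6 + x 7 + x 8 := by
      simp [Finset.sum_range_succ]
    rw [this] at htop
    norm_num at htop
    exact htop
  have hxN := xN_lt (by omega) hx htop
  rcases Nat.lt_or_ge j 2 with hj2 | hj2
  · -- `j = 1`
    have : j = 1 := by omega
    subst this
    norm_num at hbdef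
    rcases Nat.lt_or_ge N (2 * m) with hNm | hNm
    · right
      have hv : x (2 * m) < 1 / 2 := (hx hNm.le).trans_lt hxN
      have hN16 : 16 ≤ N := by
        rcases hN with h | h
        · have := hN8' h
          rcases hQ2 with h' | ⟨-, h'⟩ <;> linarith
        · exact h
      have p5 : x (2 * m - 5) ≤ x 7 := hx (by omega)
      have p6 : x (2 * m - 6) ≤ x 7 := hx (by omega)
      rcases hQ2 with h' | ⟨hex, h'⟩
      · refine ⟨by omega, ?_, ?_, ?_, ?_⟩ <;> linarith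
      · have q6 : x (2 * m - 6) ≤ x N := hx (by omega)
        have q5 : x (2 * m - 5) ≤ x N := hx (by omega)
        refine ⟨by omega, ?_, ?_, ?_, ?_⟩ <;> linarith
    · left
      refine ⟨hNm, ?_⟩
      rcases hQ2 with h' | ⟨h, -⟩
      · linarith
      · omega
  -- `j ≥ 2`
  have k8 : x (4 * j) ≤ x 8 := hx (by omega)
  have hbb : b ≤ 2 * x (2 * m + 1) ∨ b ≤ x (2 * m) + x (2 * m + 1) ∨
      b ≤ 2 * x 8 - x (2 * m) - x (2 * m + 1) ∨ b ≤ 2 * x 8 - 2 * x (2 * m) := by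
    rcases (by omega : 2 * m + 2 ≤ 4 * j ∨ 2 * m = 4 * j ∨ 2 * m = 4 * j + 2 ∨ 4 * j + 4 ≤ 2 * m) with h | h | h | h
    · left
      have : x (4 * j) ≤ x (2 * m + 1) := hx (by omega)
      linarith
    · right; left
      rw [h]
      linarith
    · right; right; left
      rw [h, show 4 * j + 2 + 1 = 4 * j + 3 by ring]
      linarith
    · right; right; right
      have : x (2 * m) ≤ x (4 * j + 3) := hx (by omega)
      linarith
  rcases Nat.lt_or_ge N (2 * m) with hNm | hNm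
  · right
    have hv : x (2 * m) < 1 / 2 := (hx hNm.le).trans_lt hxN
    -- in the exceptional case only the fourth position is possible, so `b` is not needed
    have hN16 : 16 ≤ N := by
      rcases hN with h | h
      · have := hN8' h
        rcases hQ2 with h' | ⟨-, h'⟩ <;> rcases hbb with h'' | h'' | h'' | h'' <;> linarith
      · exact h
    have hev : 1 / 2 - x (2 * m) ≤ 2 - x 2 - x 3 := by
      rcases hQ2 with h' | ⟨-, h'⟩ <;> rcases hbb with h'' | h'' | h'' | h'' <;> linarith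
    have p5' : x (2 * m - 5) ≤ x (2 * m - 6) := hx (by omega)
    have p6 : x (2 * m - 6) ≤ 1 / 2 := by
      by_contra hcon
      rw [not_le] at hcon
      have hle : 2 * m - 6 ≤ N := by
        by_contra hgt
        have : x (2 * m - 6) ≤ x N := hx (by omega)
        linarith
      obtain ⟨q, hq⟩ : ∃ q, 2 * m = q + 13 := ⟨2 * m - 13, by omega⟩
      obtain ⟨s, hs⟩ : ∃ s, N = 7 + (q + s) := ⟨N - 7 - q, by omega⟩
      have hs5 : s ≤ 5 := by omega
      have hsum := top_low (x := x) (v := x (2 * m)) (z := 1 / 2) hs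
        (fun i hi => hcon.le.trans (hx (by omega))) (fun i hi => hx (by omega))
      have hNc : (N : ℝ) = 7 + (q + s) := by rw [hs]; push_cast; ring
      have hsc : (s : ℝ) * (1 / 2 - x (2 * m)) ≤ 5 * (1 / 2 - x (2 * m)) :=
        mul_le_mul_of_nonneg_right (by exact_mod_cast hs5) (by linarith)
      rw [hNc] at htop
      have hsc' : (s : ℝ) * x (2 * m) ≥ s * (1 / 2) - 5 * (1 / 2 - x (2 * m)) := by linarith
      generalize (s : ℝ) * x (2 * m) = sv at *
      rcases hQ2 with h' | ⟨-, h'⟩ <;> rcases hbb with h'' | h'' | h'' | h'' <;> linarith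
    refine ⟨by omega, ?_, ?_, ?_, ?_⟩ <;> rcases hQ2 with h' | ⟨-, h'⟩ <;> linarith
  · left
    refine ⟨hNm, ?_⟩
    rcases hQ2 with h' | ⟨h, -⟩
    · rcases hbb with h'' | h'' | h'' | h'' <;> linarith
    · omega

end Pool.Agent.Helper42.VR
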